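import Pool.Agent.H739K.MOM3

/-!
All moments of the area of square-lattice self-avoiding polygons: for every `k`, the `k`-th moments
of the area (plain and normalised by the mean) at perimeters `2 n` and `2 n + 2` differ by a factor
`1 + O(((log n)^9 / n)^(1/2))`.
-/

namespace Pool.Agent.Results.MP_f6626d_co.AllMoments

/-- a closed nearest-neighbour loop on `ℤ²` with `m` steps, rooted at the origin and oriented,
that visits no vertex twice -/
def IsLoop (m : ℕ) (f : ZMod m → ℤ × ℤ) : Prop :=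
  f 0 = 0 ∧ Function.Injective f ∧
    ∀ i : ZMod m, |(f (i + 1)).1 - (f i).1| + |(f (i + 1)).2 - (f i).2| = 1

/-- the edge from `f k` to `f (k+1)` is horizontal, joins the columns `x = a` and `x = a + 1`, and
has height larger than `b`: it lies above the unit cell `[a, a+1] × [b, b+1]` -/
def Above (m : ℕ) (f : ZMod m → ℤ × ℤ) (a b : ℤ) (k : ZMod m) : Prop :=
  (((f k).1 = a ∧ (f (k + 1)).1 = a + 1) ∨ ((f k).1 = a + 1 ∧ (f (k + 1)).1 = a)) ∧ b < (f k).2

/-- the unit cell `[a, a+1] × [b, b+1]` is enclosed by the loop: the vertical ray from the cell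
upwards crosses an odd number of edges -/
def Encl (m : ℕ) (f : ZMod m → ℤ × ℤ) (c : ℤ × ℤ) : Prop :=
  Odd (Nat.card {k : ZMod m // Above m f c.1 c.2 k})

/-- the area: the number of unit cells enclosed by the loop -/
noncomputable def area (m : ℕ) (f : ZMod m → ℤ × ℤ) : ℕ := Nat.card {c : ℤ × ℤ // Encl m f c}

/-- expectation under the uniform law on the (rooted, oriented) self-avoiding polygons of
perimeter `2 n` -/
noncomputable def E (n : ℕ) (F : (ZMod (2 * n) → ℤ × ℤ) → ℝ) : ℝ :=
  (∑ᶠ f ∈ {f : ZMod (2 * n) → ℤ × ℤ | IsLoop (2 * n) f}, F f) /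
    ({f : ZMod (2 * n) → ℤ × ℤ | IsLoop (2 * n) f}.ncard : ℝ)

/-- the `k`-th moment `E[A_n^k]` of the area -/
noncomputable def moment (k n : ℕ) : ℝ := E n (fun f => (area (2 * n) f : ℝ) ^ k)

/-- the mean area `E[A_n]` -/
noncomputable def meanArea (n : ℕ) : ℝ := E n (fun f => (area (2 * n) f : ℝ))

/-- the `k`-th moment `E[(A_n / E[A_n])^k]` of the normalised area -/
noncomputable def nmoment (k n : ℕ) : ℝ := E n (fun f => ((area (2 * n) f : ℝ) / meanArea n) ^ k)

/-- **Theorem.** For every `k` there is `K` such that for all `n ≥ 2`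
`|E[A_{n+1}^k] / E[A_n^k] - 1| ≤ K ((log n)^9 / n)^(1/2)`, and the same holds for the moments of
the normalised area `A_n / E[A_n]`. -/
theorem result : ∀ k : ℕ, ∃ K : ℝ, ∀ n : ℕ, 2 ≤ n →
    |moment k (n + 1) / moment k n - 1| ≤ K * Real.sqrt (Real.log n ^ 9 / n) ∧
    |nmoment k (n + 1) / nmoment k n - 1| ≤ K * Real.sqrt (Real.log n ^ 9 / n) :=
  Pool.Agent.H739K.MOM.all_moments

end Pool.Agent.Results.MP_f6626d_co.AllMoments
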